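import Pool.Agent.Lib.MP_eee7a8_ag.TB.Iface1

/-!
# TAGBR: module FIXTWO (helper7)
-/

open Matrix

namespace Pool.Agent.Lib.MP_eee7a8_ag.TB

theorem AFixTwo.ext {g : SLZ} {e : ℤ} (h00 : g.1 0 0 = e) (h01 : g.1 0 1 = 0) (h10 : g.1 1 0 = 0)
    (h11 : g.1 1 1 = e) (he : e = 1 ∨ e = -1) : g = 1 ∨ g = -1 := by
  rcases he with rfl | rfl
  · left
    apply Matrix.SpecialLinearGroup.ext
    intro i j
    fin_cases i <;> fin_cases j <;> simp [h00, h01, h10, h11]
  · right
    apply Matrix.SpecialLinearGroup.ext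
    intro i j
    fin_cases i <;> fin_cases j <;> simp [h00, h01, h10, h11]

theorem AFixTwo.first (g : SLZ) (a b : Cusp) (ha : g • a = a) (hb : g • b = b) (hab : a ≠ b) :
    g = 1 ∨ g = -1 := by
  have hd := dt_smul g a b
  rw [ha, hb] at hd
  have h0 := dt_ne_zero hab
  have he : eps g a * eps g b = 1 := by
    have : (eps g a * eps g b - 1) * dt a b = 0 := by linear_combination -hd
    rcases mul_eq_zero.1 this with h | h
    · linarith
    · exact absurd h h0
  have he' : eps g b = eps g a := by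
    rcases eps_or g a with h | h <;> rcases eps_or g b with h' | h' <;> rw [h, h'] at he ⊢ <;>
      simp at he
  have ax := smul_x g a
  have ay := smul_y g a
  have bx := smul_x g b
  have bY := smul_y g b
  rw [ha] at ax ay
  rw [hb, he'] at bx bY
  unfold dt at h0
  have k1 : (g.1 0 0 - eps g a) * (a.x * b.y - a.y * b.x) = 0 := by
    linear_combination b.y * (-ax) + a.y * bx
  have k2 : (g.1 0 1) * (a.x * b.y - a.y * b.x) = 0 := by
    linear_combination b.x * ax - a.x * bx
  have k3 : (g.1 1 0) * (a.x * b.y - a.y * b.x) = 0 := by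
    linear_combination b.y * (-ay) + a.y * bY
  have k4 : (g.1 1 1 - eps g a) * (a.x * b.y - a.y * b.x) = 0 := by
    linear_combination b.x * ay - a.x * bY
  have c1 := (mul_eq_zero.1 k1).resolve_right h0
  have c2 := (mul_eq_zero.1 k2).resolve_right h0
  have c3 := (mul_eq_zero.1 k3).resolve_right h0
  have c4 := (mul_eq_zero.1 k4).resolve_right h0
  exact AFixTwo.ext (by linarith) c2 c3 (by linarith) (eps_or g a)

theorem AFixTwo.cube (g : SLZ) (i j : Fin 2) : (g * g * g).1 i j =
    ((g.1 0 0 + g.1 1 1) ^ 2 - 1) * g.1 i j - (g.1 0 0 + g.1 1 1) * (if i = j then 1 else 0) := by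
  have hd := det_eq g
  simp only [Matrix.SpecialLinearGroup.coe_mul, Matrix.mul_apply, Fin.sum_univ_two]
  fin_cases i <;> fin_cases j <;>
    simp only [Fin.mk_zero, Fin.mk_one, Fin.isValue, if_true, zero_ne_one,
      one_ne_zero, if_false]
  · linear_combination (-2 * g.1 0 0 - g.1 1 1) * hd
  · linear_combination (-(g.1 0 1)) * hd
  · linear_combination (-(g.1 1 0)) * hd
  · linear_combination (-2 * g.1 1 1 - g.1 0 0) * hd

theorem fixtwo : FixTwoStatement := by
  refine ⟨AFixTwo.first, ?_⟩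
  rintro G hG g hg a b c hab ⟨h1, h2, h3⟩
  have hbc : b ≠ c := by
    intro h
    apply hab
    have : g • b = g • a := by rw [h2, h1, h]
    exact (smul_left_cancel g this).symm
  have e1 : (g * g * g) • a = a := by rw [mul_smul, mul_smul, h1, h2, h3]
  have e2 : (g * g * g) • b = b := by rw [mul_smul, mul_smul, h2, h3, h1]
  have h := AFixTwo.first (g * g * g) a b e1 e2 hab
  have ht := hG.tor g hg
  rw [Matrix.trace_fin_two] at ht
  have hd := det_eq g
  have c00 := AFixTwo.cube g 0 0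
  have c01 := AFixTwo.cube g 0 1
  have c10 := AFixTwo.cube g 1 0
  have c11 := AFixTwo.cube g 1 1
  simp only [if_true, zero_ne_one, one_ne_zero, if_false, mul_zero, sub_zero, mul_one] at c00 c01 c10 c11
  have hT : (g.1 0 0 + g.1 1 1) ^ 2 - 1 ≠ 0 := by
    intro h0
    have h4 : (2 : ℤ) ^ 2 ≤ (g.1 0 0 + g.1 1 1) ^ 2 := sq_le_sq' (by
      have := neg_abs_le (g.1 0 0 + g.1 1 1)
      by_contra hlt
      push Not at hlt
      have h5 : (g.1 0 0 + g.1 1 1) ^ 2 = 1 := by linarith
      have h6 : |g.1 0 0 + g.1 1 1| ^ 2 = 1 := by rw [sq_abs]; exact h5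
      nlinarith [abs_nonneg (g.1 0 0 + g.1 1 1)]) (by
      have h5 : (g.1 0 0 + g.1 1 1) ^ 2 = 1 := by linarith
      have h6 : |g.1 0 0 + g.1 1 1| ^ 2 = 1 := by rw [sq_abs]; exact h5
      nlinarith [abs_nonneg (g.1 0 0 + g.1 1 1)])
    linarith
  have key : ∀ e : ℤ, (g * g * g).1 0 0 = e → (g * g * g).1 1 1 = e → (g * g * g).1 0 1 = 0 →
      (g * g * g).1 1 0 = 0 → False := by
    intro e k00 k11 k01 k10
    rw [k00] at c00
    rw [k11] at c11
    rw [k01] at c01
    rw [k10] at c10
    have g01 := (mul_eq_zero.1 c01.symm).resolve_left hT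
    have g10 := (mul_eq_zero.1 c10.symm).resolve_left hT
    have gd : g.1 0 0 = g.1 1 1 := by
      have : ((g.1 0 0 + g.1 1 1) ^ 2 - 1) * (g.1 0 0 - g.1 1 1) = 0 := by
        linear_combination c11 - c00
      have := (mul_eq_zero.1 this).resolve_left hT
      linarith
    rw [g01, g10, ← gd] at hd
    have hpm : g.1 0 0 = 1 ∨ g.1 0 0 = -1 := by
      have : g.1 0 0 * g.1 0 0 = 1 := by linarith
      exact Int.isUnit_iff.1 (IsUnit.of_mul_eq_one _ this)
    rcases AFixTwo.ext rfl g01 g10 gd.symm hpm with h' | h'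
    · apply hab; rw [← h1, h', one_smul]
    · apply hab; rw [← h1, h', neg_smul', one_smul]
  rcases h with h | h
  · exact key 1 (by rw [h]; rfl) (by rw [h]; rfl) (by rw [h]; rfl) (by rw [h]; rfl)
  · exact key (-1) (by rw [h]; simp) (by rw [h]; simp) (by rw [h]; simp) (by rw [h]; simp)

end Pool.Agent.Lib.MP_eee7a8_ag.TB
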