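import Pool.Agent.Lib.MP_eee7a8_ag.TB.IfaceA
import Pool.Agent.Lib.MP_eee7a8_ag.TB.A.Coord

/-!
# TAGBR: module SIDES (helper7)
-/

open Matrix

namespace Pool.Agent.Lib.MP_eee7a8_ag.TB

/-- The orientation of a triple of cusps is invariant. -/
theorem ASides.orient (g : SLZ) (x y z : Cusp) :
    dt (g • x) (g • y) * dt (g • y) (g • z) * dt (g • z) (g • x) =
      dt x y * dt y z * dt z x := by
  rw [dt_smul, dt_smul, dt_smul]
  have ex := eps_sq g x
  have ey := eps_sq g y
  have ez := eps_sq g z
  calc eps g x * eps g y * dt x y * (eps g y * eps g z * dt y z) * (eps g z * eps g x * dt z x)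
      = (eps g x * eps g x) * (eps g y * eps g y) * (eps g z * eps g z) *
        (dt x y * dt y z * dt z x) := by ring
    _ = _ := by rw [ex, ey, ez]; ring

theorem sides (hF : FixTwoStatement) : SidesStatement := by
  intro G hG ι _ T hT a f c d hcd hac had hfc hfd hcr hsim
  have hN := hT.toNonCross
  refine ⟨?_, fun h => hN.nocross _ _ _ _ h hcd hcr⟩
  have nac := hN.ne' hac
  have nad := hN.ne' had
  have ncd := hN.ne' hcd
  have nfc := hN.ne' hfc
  have nfd := hN.ne' hfd
  have dac := dt_ne_zero nac
  have dcd := dt_ne_zero ncd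
  have dad := dt_ne_zero nad
  have hgen : ∀ g ∈ G, g • c = a → g • d = c → False := by
    intro g hg h1 h2
    have o := ASides.orient g c d a
    rw [h1, h2] at o
    have hc : ¬ Cross (g • a) d a c := by
      unfold Cross
      intro hlt
      have h3 : dt a c * (dt c (g • a) * dt (g • a) a) = dt a c * (dt c d * dt d a) := by
        linear_combination o
      have h4 := mul_left_cancel₀ dac h3
      have h5 : dt (g • a) a * dt d a * (dt (g • a) c * dt d c) =
          (dt c d * dt d a) * (dt c d * dt d a) := by
        rw [dt_symm (g • a) c, dt_symm d c]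
        linear_combination (dt d a * dt c d) * h4
      rw [h5] at hlt
      exact absurd hlt (not_lt.2 (mul_self_nonneg _))
    have e1 : T.E G (g • a) a := by
      have := hac.smul hg
      rwa [h1] at this
    have e2 : T.E G (g • a) c := by
      have := had.smul hg
      rwa [h2] at this
    have e3 : g • a = d := hN.third hac e1 e2 had.symm hcd.symm hc
    exact hF.2 G hG g hg c a d nac.symm ⟨h1, e3, h2⟩
  have hpar : ∀ g ∈ G, g • c = c → g • d = a → False := by
    intro g hg h1 h2
    obtain ⟨t, t1, t2, t3, t4, t5⟩ := coord c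
    obtain ⟨n, -, hn⟩ := t3 g h1
    have o := ASides.orient g c d f
    rw [h1, h2] at o
    have hc : ¬ Cross (g • f) d a c := by
      unfold Cross at hcr ⊢
      intro hlt
      have h3 : dt c a * (dt a (g • f) * dt (g • f) c) = dt c d * dt d f * dt f c := by
        linear_combination o
      have h4 : dt c a * dt c a * (dt (g • f) a * dt d a * (dt (g • f) c * dt d c)) =
          (dt c d * dt c d) * (dt d a * dt c a * dt d f * dt f c) := by
        rw [dt_symm (g • f) a, dt_symm d c]
        linear_combination (dt c a * dt d a * dt c d) * h3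
      have h5 : 0 < dt d a * dt c a * dt d f * dt f c := by
        have : dt a c * dt f c * (dt a d * dt f d) = -(dt d a * dt c a * dt d f * dt f c) := by
          rw [dt_symm a c, dt_symm a d, dt_symm f d]; ring
        rw [this] at hcr
        linarith
      have h6 : 0 < dt c d * dt c d := mul_self_pos.2 dcd
      have h7 : 0 < dt c a * dt c a := mul_self_pos.2 (dt_ne_zero nac.symm)
      have h8 := mul_neg_of_pos_of_neg h7 hlt
      rw [h4] at h8
      exact absurd h8 (not_lt.2 (le_of_lt (mul_pos h6 h5)))
    have e1 : T.E G (g • f) a := by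
      have := hfd.smul hg
      rwa [h2] at this
    have e2 : T.E G (g • f) c := by
      have := hfc.smul hg
      rwa [h1] at this
    have e3 : g • f = d := hN.third hac e1 e2 had.symm hcd.symm hc
    have f1 := (hn f nfc).2
    have f2 := (hn d ncd.symm).2
    have f3 := (hn a nac).2
    have ga : g • a ≠ c := (hn a nac).1
    rw [e3] at f1
    rw [h2] at f2
    have hn0 : (n : ℚ) ≠ 0 := by
      intro h0
      apply nad
      apply t1 a d nac ncd.symm
      rw [f2, h0, add_zero]
    apply hsim.2 g hg
    rw [e3]
    rw [t5 a f (g • a) d nac nfc ga ncd.symm]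
    right
    rcases lt_or_gt_of_ne hn0 with h | h
    · refine ⟨Or.inr ⟨by linarith, by linarith⟩, Or.inl ⟨by linarith, by linarith⟩⟩
    · refine ⟨Or.inl ⟨by linarith, by linarith⟩, Or.inr ⟨by linarith, by linarith⟩⟩
  rintro ⟨g, hg, ⟨h1, h2⟩ | ⟨h1, h2⟩⟩
  · exact hgen g hg h1 h2
  · exact hpar g hg h1 h2

end Pool.Agent.Lib.MP_eee7a8_ag.TB
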